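import Mathlib
import Pool.Agent.R748.ConeMain

/-!
# MP_ae9099_mp: boundary continuity of Green functions on trees of finite cone type

For every label invariant operator `T` on a tree of finite cone type (with `M_{j,j} ≥ 1` for all
`j`), and every vertex `x`, the functions `Γ_x(·, T)` and `G_x(·, T)` extend continuously from the
upper half plane to the closed upper half plane. The definitions are in
`Pool.Agent.R748.ConeDefs`.
-/

namespace Pool.Agent.R748.Cone

open MeasureTheory Filter Topology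

variable {A V : Type} [MeasurableSpace V] [DiscreteMeasurableSpace V] {M : A → A → ℕ}
  {𝒯 : RootedTree V} {a : V → A} {ν : V → ℝ} {t : V → V → ℂ} {w : V → ℝ} {T : L2 ν →L[ℂ] L2 ν}

/-- boundary limits of `γ`, without surjectivity of the labelling -/
theorem γ_lim' [Finite A]
    (hν : ∀ x, 0 < ν x) (hνa : ∀ x y, a x = a y → ν x = ν y)
    (hM1 : ∀ j, 1 ≤ M j j)
    (hch : ∀ x l, {y | 𝒯.IsChild y x ∧ a y = l}.encard = M (a x) l)
    (hL : IsLabelInvariant M 𝒯 a ν t w T) (x : V) (E : ℂ) (hE : E.im = 0) :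
    ∃ L, Tendsto (γ 𝒯 T x) (𝓝[HP] E) (𝓝 L) := by
  classical
  have : Fintype (Set.range a) := Fintype.ofFinite _
  let a' : V → Set.range a := fun x => ⟨a x, x, rfl⟩
  let M' : Set.range a → Set.range a → ℕ := fun j k => M j.1 k.1
  have hsurj : Function.Surjective a' := by
    rintro ⟨_, y, rfl⟩
    exact ⟨y, rfl⟩
  have hch' : ∀ x l, {y | 𝒯.IsChild y x ∧ a' y = l}.encard = M' (a' x) l := by
    intro x l
    have : {y | 𝒯.IsChild y x ∧ a' y = l} = {y | 𝒯.IsChild y x ∧ a y = l.1} := by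
      ext y
      simp [a', Subtype.ext_iff]
    rw [this]
    exact hch x l.1
  have hL' : IsLabelInvariant M' 𝒯 a' ν t w T := by
    refine ⟨hL.selfAdjoint, hL.formula, hL.ne_zero_iff, hL.symm, ?_⟩
    obtain ⟨m, m', hm⟩ := hL.exists_m
    exact ⟨fun j k => m j.1 k.1, fun j => m' j.1, fun x y hxy => hm x y hxy⟩
  exact γ_lim hsurj hν (fun x y h => hνa x y (congrArg Subtype.val h)) (fun j => hM1 j.1) hch' hL'
    x E hE

theorem full_lim [Finite A]
    (hν : ∀ x, 0 < ν x) (hνa : ∀ x y, a x = a y → ν x = ν y)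
    (hM1 : ∀ j, 1 ≤ M j j)
    (hch : ∀ x l, {y | 𝒯.IsChild y x ∧ a y = l}.encard = M (a x) l)
    (hL : IsLabelInvariant M 𝒯 a ν t w T) (E : ℂ) (hE : E.im = 0) :
    ∀ (n : ℕ) (x : V), 𝒯.parent^[n] x = 𝒯.root →
    ∃ L, Tendsto (fun z => (Ring.inverse (T - z • (1 : L2 ν →L[ℂ] L2 ν)) (delta ν x) : L2 ν) x) (𝓝[HP] E) (𝓝 L) := by
  have hroot : ∃ L, Tendsto (fun z => (Ring.inverse (T - z • (1 : L2 ν →L[ℂ] L2 ν)) (delta ν 𝒯.root) : L2 ν) 𝒯.root)
      (𝓝[HP] E) (𝓝 L) := by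
    obtain ⟨L, hL1⟩ := γ_lim' hν hνa hM1 hch hL 𝒯.root E hE
    refine ⟨L, hL1.congr' ?_⟩
    filter_upwards [self_mem_nhdsWithin] with z hz
    exact (full_root hν hL.selfAdjoint hz).symm
  intro n
  induction n with
  | zero =>
    intro x hx
    have hx' : x = 𝒯.root := hx
    rw [hx']
    exact hroot
  | succ n ih =>
    intro x hx
    by_cases h0 : x = 𝒯.root
    · rw [h0]; exact hroot
    · rw [Function.iterate_succ_apply] at hx
      obtain ⟨L1, hL1⟩ := ih (𝒯.parent x) hx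
      obtain ⟨L', hL2⟩ := γ_lim' hν hνa hM1 hch hL x E hE
      have hc : 𝒯.IsChild x (𝒯.parent x) := ⟨h0, rfl⟩
      refine ⟨L' + t (𝒯.parent x) x * t x (𝒯.parent x) * L' ^ 2 * L1, ?_⟩
      have h3 : Tendsto (fun z => γ 𝒯 T x z + t (𝒯.parent x) x * t x (𝒯.parent x) *
          γ 𝒯 T x z ^ 2 *
          (Ring.inverse (T - z • (1 : L2 ν →L[ℂ] L2 ν)) (delta ν (𝒯.parent x)) : L2 ν) (𝒯.parent x)) (𝓝[HP] E)
          (𝓝 (L' + t (𝒯.parent x) x * t x (𝒯.parent x) * L' ^ 2 * L1)) :=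
        hL2.add (((hL2.pow 2).const_mul _).mul hL1)
      refine h3.congr' ?_
      filter_upwards [self_mem_nhdsWithin] with z hz
      exact (full_child hν hch hL hc hz).symm

theorem closure_HP : {z : ℂ | 0 ≤ z.im} ⊆ closure HP := by
  intro z hz
  have hz' : 0 ≤ z.im := hz
  rw [Metric.mem_closure_iff]
  intro ε hε
  refine ⟨z + (ε / 2 : ℝ) * Complex.I, ?_, ?_⟩
  · show 0 < (z + (ε / 2 : ℝ) * Complex.I).im
    rw [Complex.add_im, Complex.im_ofReal_mul, Complex.I_im]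
    linarith
  · rw [dist_eq_norm]
    simp only [sub_add_cancel_left, norm_neg, norm_mul, Complex.norm_I, mul_one,
      Complex.norm_real, Real.norm_eq_abs]
    rw [abs_of_pos (by linarith)]
    linarith

theorem conclude (f : ℂ → ℂ) (hf : ContinuousOn f HP)
    (hlim : ∀ E : ℂ, E.im = 0 → ∃ L, Tendsto f (𝓝[HP] E) (𝓝 L)) :
    (∃ g : ℝ → ℂ, Continuous g ∧ ∀ E : ℝ,
      Tendsto (fun η : ℝ => f (E + η * Complex.I)) (𝓝[>] 0) (𝓝 (g E))) ∧
    (∃ g : ℂ → ℂ, ContinuousOn g {z : ℂ | 0 ≤ z.im} ∧ ∀ z : ℂ, 0 < z.im → g z = f z) := by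
  have hall : ∀ z ∈ {z : ℂ | 0 ≤ z.im}, ∃ L, Tendsto f (𝓝[HP] z) (𝓝 L) := by
    intro z hz
    have hz' : 0 ≤ z.im := hz
    rcases hz'.eq_or_lt with h | h
    · exact hlim z h.symm
    · exact ⟨f z, hf z h⟩
  have hcont : ContinuousOn (extendFrom HP f) {z : ℂ | 0 ≤ z.im} :=
    continuousOn_extendFrom closure_HP hall
  have heq : ∀ z : ℂ, 0 < z.im → extendFrom HP f z = f z := fun z hz =>
    extendFrom_eq (subset_closure hz) (hf z hz)
  refine ⟨⟨fun E => extendFrom HP f E, ?_, ?_⟩, ⟨extendFrom HP f, hcont, heq⟩⟩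
  · rw [← continuousOn_univ]
    refine hcont.comp Complex.continuous_ofReal.continuousOn ?_
    intro E _
    show 0 ≤ (E : ℂ).im
    simp
  · intro E
    have hE : (E : ℂ) ∈ {z : ℂ | 0 ≤ z.im} := by
      show 0 ≤ (E : ℂ).im
      simp
    have h1 : Tendsto f (𝓝[HP] (E : ℂ)) (𝓝 (extendFrom HP f E)) :=
      tendsto_extendFrom (hall _ hE)
    refine h1.comp ?_
    rw [tendsto_nhdsWithin_iff]
    constructor
    · have h2 : Continuous fun η : ℝ => (E : ℂ) + η * Complex.I := by fun_prop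
      have h3 := h2.tendsto 0
      simp only [Complex.ofReal_zero, zero_mul, add_zero] at h3
      exact h3.mono_left nhdsWithin_le_nhds
    · filter_upwards [self_mem_nhdsWithin] with η hη
      show 0 < ((E : ℂ) + η * Complex.I).im
      simpa using hη

end Pool.Agent.R748.Cone

namespace Pool.Agent.Results.MP_ae9099_mp.ConeGreen

open Pool.Agent.R748.Cone Filter Topology

theorem result {A V : Type} [Finite A] [MeasurableSpace V] [DiscreteMeasurableSpace V]
    -- the matrix `M`, with `M_{j,j} ≥ 1`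
    (M : A → A → ℕ) (hM1 : ∀ j, 1 ≤ M j j)
    -- the labelled rooted tree: a vertex of label `k` has exactly `M_{k,l}` children of label `l`
    (𝒯 : RootedTree V) (a : V → A)
    (hch : ∀ x l, {y | 𝒯.IsChild y x ∧ a y = l}.encard = M (a x) l)
    -- the weight `ν > 0`, depending only on the label
    (ν : V → ℝ) (hν : ∀ x, 0 < ν x) (hνa : ∀ x y, a x = a y → ν x = ν y)
    -- the label invariant operator `T` on `ℓ²(V, ν)`
    (t : V → V → ℂ) (w : V → ℝ) (T : L2 ν →L[ℂ] L2 ν) (hT : IsLabelInvariant M 𝒯 a ν t w T)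
    (x : V) :
    -- the boundary values of `Γ_x` exist everywhere and are continuous
    ((∃ g : ℝ → ℂ, Continuous g ∧ ∀ E : ℝ,
      Tendsto (fun η : ℝ => greenΓ 𝒯 T x (E + η * Complex.I)) (𝓝[>] 0) (𝓝 (g E))) ∧
    -- even more, `Γ_x` extends continuously to the closed upper half plane
    (∃ g : ℂ → ℂ, ContinuousOn g {z : ℂ | 0 ≤ z.im} ∧
      ∀ z : ℂ, 0 < z.im → g z = greenΓ 𝒯 T x z)) ∧
    -- the same for `G_x`
    ((∃ g : ℝ → ℂ, Continuous g ∧ ∀ E : ℝ,
      Tendsto (fun η : ℝ => greenG T x (E + η * Complex.I)) (𝓝[>] 0) (𝓝 (g E))) ∧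
    (∃ g : ℂ → ℂ, ContinuousOn g {z : ℂ | 0 ≤ z.im} ∧
      ∀ z : ℂ, 0 < z.im → g z = greenG T x z)) := by
  constructor
  · have h1 : greenΓ 𝒯 T x = fun z => ν x * γ 𝒯 T x z := funext fun z => greenΓ_eq hν x z
    apply conclude
    · rw [h1]
      exact continuousOn_const.mul (γ_analytic hν hT.selfAdjoint x).continuousOn
    · intro E hE
      obtain ⟨L, hL⟩ := γ_lim' hν hνa hM1 hch hT x E hE
      rw [h1]
      exact ⟨ν x * L, hL.const_mul _⟩
  · have h1 : greenG T x = fun z => ν x * (Ring.inverse (T - z • (1 : L2 ν →L[ℂ] L2 ν)) (delta ν x) : L2 ν) x :=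
      funext fun z => greenG_eq hν x z
    apply conclude
    · exact (green_analytic hT.selfAdjoint (delta ν x)).continuousOn
    · intro E hE
      obtain ⟨n, hn⟩ := 𝒯.reach x
      obtain ⟨L, hL⟩ := full_lim hν hνa hM1 hch hT E hE n x hn
      rw [h1]
      exact ⟨ν x * L, hL.const_mul _⟩

end Pool.Agent.Results.MP_ae9099_mp.ConeGreen
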